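import Pool.Agent.Helper97.MG.AEx

/-!
# Block C: the order type of the functions of `n` variables is `ω_{n+1}`
-/

set_option autoImplicit false

namespace Pool.Agent.Helper48.MG

variable {M : Type} [ZFM M]

/-- the last variable -/
noncomputable def top (M : Type) [ZFM M] : Fn M := lam (fun w => lst M (fun g => ∃ t, pw t g = w)) (by fun_prop)

@[simp] theorem top_pw (t g : W M) : (top M) (pw t g) = g := by
  have h : ∃ t', pw t' (lst M (fun g' => ∃ t', pw t' g' = pw t g)) = pw t g :=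
    lst_spec (P := fun g' => ∃ t', pw t' g' = pw t g) (by fun_prop) ⟨g, t, rfl⟩
  obtain ⟨t', ht'⟩ := h
  exact (pw_inj ht').2

/-- forget the last variable -/
noncomputable def bs (f : Fn M) : Fn M := lam (fun w => f (lst M (fun t => ∃ g, pw t g = w))) (by fun_prop)

@[fun_prop] theorem IF.bs {α : Type} [Cl M α] {f : α → Fn M} (hf : IF M f) :
    IF M (fun x => bs (f x)) := by
  unfold MG.bs; fun_prop

@[simp] theorem bs_pw (f : Fn M) (t g : W M) : (bs f) (pw t g) = f t := by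
  have h : ∃ g', pw (lst M (fun t' => ∃ g', pw t' g' = pw t g)) g' = pw t g :=
    lst_spec (P := fun t' => ∃ g', pw t' g' = pw t g) (by fun_prop) ⟨t, g, rfl⟩
  obtain ⟨g', hg'⟩ := h
  show f (lst M (fun t' => ∃ g', pw t' g' = pw t g)) = f t
  rw [(pw_inj hg').1]

/-- The inputs from the other blocks. -/
structure CIn (M : Type) [ZFM M] : Prop extends EvAx M where
  /-- countable choice for reals -/
  acw : ∀ A : IFun M (N M × Re M) Prop, (∀ n, ∃ y, A (n, y)) →
    ∃ Y : IFun M (N M) (Re M), ∀ n, A (n, Y n)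
  /-- Kunen: the functions of `n + 1` variables below a given one are coded by a real and the
  functions of `n` variables -/
  kf : ∃ kf : Re M → Fn M → Fn M, IF M (fun q : Re M × Fn M => kf q.1 q.2) ∧
    (∀ n y t t', eqn n t t' → eqn (sc n) (kf y t) (kf y t')) ∧
    ∀ n (h : Fn M), ∃ y, ∀ f, ltn (sc n) f h → ∃ t, eqn (sc n) f (kf y t)
  /-- the consequence of the partition theorem for pairs -/
  pairs : ∀ (n : N M) (R : IFun M (Fn M × Fn M) Prop),
    (∀ F F' G G', eqn (sc n) F F' → eqn (sc n) G G' → R (F, G) → R (F', G')) →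
    ∃ hf : IFun M (Fn M) (Fn M),
      (∀ z z', ltn (sc n) z z' → len (sc n) z' (top M) → ltn (sc n) (hf z) (hf z')) ∧
      ((∀ z z', ltn (sc n) z z' → len (sc n) z' (top M) → R (hf z, hf z')) ∨
        ∀ z z', ltn (sc n) z z' → len (sc n) z' (top M) → ¬ R (hf z, hf z'))

/-! ### functions are coded by reals -/

/-- codes of functions: `Kf n z`, `z` a real, are all functions of `n` variables -/
theorem exists_Kf (hC : CIn M) : ∃ K : N M → Re M → Fn M,
    IF M (fun q : N M × Re M => K q.1 q.2) ∧ ∀ n f, ∃ z, eqn n f (K n z) := by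
  obtain ⟨kf, hkf, hinv, hrep⟩ := hC.kf
  have hkf' : IF M (fun q : IFun M (Re M) (Fn M) × Re M => kf (sec q.2 0) (q.1 (sec q.2 (sc 0)))) :=
    hkf.comp (g := fun q : IFun M (Re M) (Fn M) × Re M => (sec q.2 0, q.1 (sec q.2 (sc 0))))
      (by fun_prop)
  have hkf1 : ∀ K : IFun M (Re M) (Fn M), IF M (fun z : Re M => kf (sec z 0) (K (sec z (sc 0)))) :=
    fun K => hkf'.comp (g := fun z : Re M => (K, z)) (by fun_prop)
  obtain ⟨K, hK, K0, Ks⟩ := N.exists_rec (M := M) (γ := Unit) (β := IFun M (Re M) (Fn M))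
    (fun _ => lam (fun z : Re M => lam (fun _ => nrm z) (by fun_prop)) (by fun_prop))
    (fun _ _ K => lam (fun z : Re M => kf (sec z 0) (K (sec z (sc 0)))) (hkf1 K)) (by fun_prop) (by
      refine IF.lam ?_
      exact hkf'.comp (g := fun q : (Unit × N M × IFun M (Re M) (Fn M)) × Re M => (q.1.2.2, q.2))
        (by fun_prop))
  have hK' : IF M (fun n : N M => K () n) := hK.comp (g := fun n : N M => ((), n)) (by fun_prop)
  refine ⟨fun n z => K () n z, ?_, ?_⟩
  · have h1 : IF M (fun q : N M × Re M => K () q.1) := hK'.comp IF.fst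
    fun_prop
  · have h2 : IF M (fun r : (N M × Fn M) × Re M => K () r.1.1) :=
      hK'.comp (g := fun r : (N M × Fn M) × Re M => r.1.1) (by fun_prop)
    refine N.ind (fun n => ∀ f : Fn M, ∃ z : Re M, eqn n f (K () n z)) (by fun_prop) ?_ ?_
    · intro f
      obtain ⟨r, hr⟩ := exists_PWc (f (w0 M))
      refine ⟨r, ?_⟩
      show AE 0 (fun t => f t = (K () 0 r) t)
      rw [AE_zero (by fun_prop), K0]
      show f (w0 M) = nrm r
      rw [hr.nrm]
    · intro n ih f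
      obtain ⟨y, hy⟩ := hrep n (lam (fun t => sW (f t)) (by fun_prop))
      obtain ⟨τ, hτ⟩ := hy f (AE.of_forall (by fun_prop) fun t => lt_sW_self _)
      obtain ⟨z', hz'⟩ := ih τ
      obtain ⟨z, hz0, hz1⟩ := exists_join2 y z'
      refine ⟨z, ?_⟩
      rw [Ks]
      show eqn (sc n) f (kf (sec z 0) (K () n (sec z (sc 0))))
      rw [hz0, hz1]
      exact hτ.trans (hinv n y τ _ hz')

/-! ### the rank functions -/

/-- `ρ` is the collapse of the functions of `n` variables, of order type `ω_{n+1}` -/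
def Jr (n : N M) (ρ : IFun M (Fn M) (La M)) : Prop :=
  (∀ f g, ρ f < ρ g ↔ ltn n f g) ∧ ∀ a, (∃ f, ρ f = a) ↔ a < alL (sc n)

@[fun_prop] theorem IF.Jr {α : Type} [Cl M α] {n : α → N M} {ρ : α → IFun M (Fn M) (La M)}
    (hn : IF M n) (hρ : IF M ρ) : IF M (fun x => Jr (n x) (ρ x)) := by
  unfold MG.Jr; fun_prop

theorem Jr.eq_iff (hE : EvAx M) {n : N M} {ρ : IFun M (Fn M) (La M)} (h : Jr n ρ) (f g : Fn M) :
    ρ f = ρ g ↔ eqn n f g := by
  constructor
  · intro he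
    rcases ltn_total hE n f g with h1 | h1 | h1
    · exact absurd ((h.1 f g).2 h1) (by rw [he]; exact lt_irrefl _)
    · exact h1
    · exact absurd ((h.1 g f).2 h1) (by rw [he]; exact lt_irrefl _)
  · intro he
    refine le_antisymm (not_lt.1 fun h1 => ?_) (not_lt.1 fun h1 => ?_)
    · exact ((h.1 g f).1 h1).not_eqn hE he.symm
    · exact ((h.1 f g).1 h1).not_eqn hE he

theorem Jr_zero : Jr (0 : N M) (lam (fun f : Fn M => wl (f (w0 M))) (by fun_prop)) := by
  constructor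
  · intro f g
    show wl (f (w0 M)) < wl (g (w0 M)) ↔ AE 0 (fun t => f t < g t)
    rw [AE_zero (by fun_prop), wl_lt]
  · intro a
    rw [lt_alL_one_iff]
    constructor
    · rintro ⟨f, hf⟩; exact ⟨_, hf⟩
    · rintro ⟨b, hb⟩; exact ⟨lam (fun _ => b) (by fun_prop), hb⟩

/-- the comparison relation as a relation on `Fn` -/
noncomputable def Rn (n : N M) : IFun M (Fn M × Fn M) Prop := lam (fun p => ltn n p.1 p.2) (by fun_prop)

@[fun_prop] theorem IF.Rn {α : Type} [Cl M α] {n : α → N M}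
    (hn : IF M n) : IF M (fun x => Rn (n x)) := by
  unfold MG.Rn; fun_prop

@[simp] theorem Rn_apply (n : N M) (f g : Fn M) : (Rn n).toFun (f, g) ↔ ltn n f g := Iff.rfl

theorem RL_congr {n : N M} {f f' : Fn M} (h : eqn n f f') {a : La M} (hf : RL (Rn n) f a) :
    RL (Rn n) f' a := by
  refine RL.intro fun y hy => ?_
  exact hf.elim y (ltn.congr (eqn.refl n y) h.symm hy)

theorem rk_congr {n : N M} {f f' : Fn M} (h : eqn n f f') :
    rk (La M) (Rn n) f = rk (La M) (Rn n) f' := by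
  unfold MG.rk
  congr 1
  funext a
  exact propext ⟨RL_congr h, RL_congr h.symm⟩

/-- Step, part 1: wellfoundedness -/
theorem iwf_step (hC : CIn M) {n : N M} {ρ : IFun M (Fn M) (La M)} (hρ : Jr n ρ) :
    IWf (Rn (sc n)) := by
  have hE := hC.toEvAx
  obtain ⟨kf, hkf, hinv, hrep⟩ := hC.kf
  obtain ⟨K, hK, hKr⟩ := exists_Kf hC
  rintro P ⟨h, hh⟩
  by_contra hcon
  push Not at hcon
  have hcon' : ∀ x, P x → ∃ y, ltn (sc n) y x ∧ P y := hcon
  obtain ⟨y, hy⟩ := hrep n h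
  have hky : IF M (fun t : Fn M => kf y t) := hkf.comp (g := fun t : Fn M => (y, t)) (by fun_prop)
  let k : IFun M (Fn M) (Fn M) := ⟨_, hky⟩
  have hk : ∀ t, k t = kf y t := fun _ => rfl
  let S : IFun M (Fn M) Prop := lam (fun t => ∃ f, P f ∧ eqn (sc n) f (k t) ∧ ltn (sc n) f h) (by fun_prop)
  -- the next element
  let nx : La M → La M := fun a => lst M (fun b => ∃ t t', ρ t = a ∧ ρ t' = b ∧ S t' ∧
    ltn (sc n) (k t') (k t))
  have hnx : IF M nx := by
    show IF M (fun a : La M => lst M (fun b : La M => ∃ t t', ρ t = a ∧ ρ t' = b ∧ S t' ∧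
      ltn (sc n) (k t') (k t)))
    fun_prop
  have hstep : ∀ t, S t → ∃ t', S t' ∧ ltn (sc n) (k t') (k t) := by
    rintro t ⟨f, hf, hft, hfh⟩
    obtain ⟨f', hf', hPf'⟩ := hcon' f hf
    obtain ⟨t', ht'⟩ := hy f' (hf'.trans hfh)
    exact ⟨t', ⟨f', hPf', ht', hf'.trans hfh⟩, hf'.congr ht' hft⟩
  obtain ⟨f0, hf0, hPf0⟩ := hcon' h hh
  obtain ⟨t0, ht0⟩ := hy f0 hf0
  obtain ⟨a, ha, a0, as⟩ := N.exists_rec (M := M) (γ := Unit) (β := La M) (fun _ => ρ t0)
    (fun _ _ x => nx x) (by fun_prop) (hnx.comp (g := fun q : Unit × N M × La M => q.2.2)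
      (by fun_prop))
  have ha' : IF M (fun n : N M => a () n) := ha.comp (g := fun n : N M => ((), n)) (by fun_prop)
  have hnxs : ∀ b, (∃ t, ρ t = b ∧ S t) → ∃ t t', ρ t = b ∧ ρ t' = nx b ∧ S t' ∧
      ltn (sc n) (k t') (k t) := by
    rintro b ⟨t, ht, hSt⟩
    obtain ⟨t', hSt', hlt⟩ := hstep t hSt
    exact lst_spec (P := fun c => ∃ t t', ρ t = b ∧ ρ t' = c ∧ S t' ∧
      ltn (sc n) (k t') (k t)) (by fun_prop) ⟨ρ t', t, t', ht, rfl, hSt', hlt⟩
  have hS : ∀ m, ∃ t, ρ t = a () m ∧ S t := by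
    refine N.ind (fun m => ∃ t, ρ t = a () m ∧ S t) ?_ ?_ ?_
    · have h1 : IF M (fun r : N M × Fn M => a () r.1) := ha'.comp IF.fst
      fun_prop
    · rw [a0]
      exact ⟨t0, rfl, f0, hPf0, ht0, hf0⟩
    · intro m ih
      obtain ⟨t, t', h1, h2, h3, h4⟩ := hnxs _ ih
      exact ⟨t', by rw [as]; exact h2, h3⟩
  -- representatives
  have hA : IF M (fun q : N M × Re M => ρ (K n q.2) = a () q.1) := by
    have h1 : IF M (fun r : N M × Re M => a () r.1) := ha'.comp IF.fst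
    have h2 : IF M (fun q : N M × Re M => K n q.2) :=
      hK.comp (g := fun q : N M × Re M => (n, q.2)) (by fun_prop)
    fun_prop
  obtain ⟨Y, hY⟩ := hC.acw ⟨_, hA⟩ (fun m => by
    obtain ⟨t, ht, _⟩ := hS m
    obtain ⟨z, hz⟩ := hKr n t
    exact ⟨z, by show ρ (K n z) = a () m; rw [← ht]; exact (hρ.eq_iff hE _ _).2 hz.symm⟩)
  have hF : IF M (fun m : N M => k (K n (Y m))) := by
    have h2 : IF M (fun m : N M => K n (Y m)) :=
      hK.comp (g := fun m : N M => (n, Y m)) (by fun_prop)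
    fun_prop
  obtain ⟨m, hm⟩ := no_desc hE (sc n) ⟨_, hF⟩
  apply hm
  show ltn (sc n) (k (K n (Y (sc m)))) (k (K n (Y m)))
  obtain ⟨t, t', h1, h2, h3, h4⟩ := hnxs _ (hS m)
  have e1 : eqn n t (K n (Y m)) := (hρ.eq_iff hE _ _).1 (h1.trans (hY m).symm)
  have e2 : eqn n t' (K n (Y (sc m))) := (hρ.eq_iff hE _ _).1 (by
    rw [h2, ← as]; exact (hY (sc m)).symm)
  exact h4.congr (hinv n y _ _ e2) (hinv n y _ _ e1)

/-- Step, part 2: the ranks are below `ω_{n+2}` -/
theorem rank_step (hC : CIn M) {n : N M} {ρ : IFun M (Fn M) (La M)} (hρ : Jr n ρ) (f : Fn M) :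
    ∃ d, d < alL (sc (sc n)) ∧ RL (Rn (sc n)) f d := by
  classical
  have hE := hC.toEvAx
  obtain ⟨kf, hkf, hinv, hrep⟩ := hC.kf
  by_contra hcon
  obtain ⟨x, hx, hx'⟩ := iwf_step hC hρ (lam (fun f => ¬ ∃ d, d < alL (sc (sc n)) ∧
    RL (Rn (sc n)) f d) (by fun_prop)) ⟨f, hcon⟩
  have hpre : ∀ f, ltn (sc n) f x → ∃ d, d < alL (sc (sc n)) ∧ RL (Rn (sc n)) f d := fun f hf =>
    not_not.1 (hx' f hf)
  obtain ⟨y, hy⟩ := hrep n x
  have hky : IF M (fun t : Fn M => kf y t) := hkf.comp (g := fun t : Fn M => (y, t)) (by fun_prop)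
  let k : IFun M (Fn M) (Fn M) := ⟨_, hky⟩
  have hg : IF M (fun a : La M => lst M (fun b : La M => ∃ t, ρ t = a ∧
      rk (La M) (Rn (sc n)) (k t) = b)) := by fun_prop
  obtain ⟨d, hd, hd'⟩ := not_cov_La (sc n) ⟨_, hg⟩
  apply hx
  refine ⟨d, hd, RL.intro fun f hf => ?_⟩
  have hf' : ltn (sc n) f x := hf
  obtain ⟨d1, hd1, hRL⟩ := hpre f hf'
  refine ⟨rk (La M) (Rn (sc n)) f, ?_, hRL.rkd.rl⟩
  by_contra hlt
  have key : ∀ f, ltn (sc n) f x → rk (La M) (Rn (sc n)) f ≠ d := by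
    intro f hf he
    obtain ⟨t, ht⟩ := hy f hf
    have h1 : ρ t < alL (sc n) := (hρ.2 _).1 ⟨t, rfl⟩
    apply hd' (ρ t) h1
    show lst M (fun b : La M => ∃ t', ρ t' = ρ t ∧ rk (La M) (Rn (sc n)) (k t') = b) = d
    have h2 : ∃ t', ρ t' = ρ t ∧ rk (La M) (Rn (sc n)) (k t') =
        lst M (fun b : La M => ∃ t', ρ t' = ρ t ∧ rk (La M) (Rn (sc n)) (k t') = b) :=
      lst_spec (P := fun b : La M => ∃ t', ρ t' = ρ t ∧ rk (La M) (Rn (sc n)) (k t') = b)
        (by fun_prop) ⟨_, t, rfl, rfl⟩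
    obtain ⟨t', h3, h4⟩ := h2
    rw [← h4, ← he]
    refine rk_congr ?_
    exact ((hinv n y _ _ ((hρ.eq_iff hE _ _).1 h3)).trans ht.symm)
  rcases lt_or_eq_of_le (not_lt.1 hlt) with h | h
  · obtain ⟨z, hz, hz'⟩ := exists_rk_eq_below (M := M) (R := Rn (sc n))
      (fun a b c hab hbc => ltn.trans hab hbc) hRL.rkd h
    exact key z (ltn.trans hz hf') hz'
  · exact key f hf' h.symm

/-- Step -/
theorem Jr_step (hC : CIn M) {n : N M} {ρ : IFun M (Fn M) (La M)} (hρ : Jr n ρ) :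
    ∃ ρ' : IFun M (Fn M) (La M), Jr (sc n) ρ' := by
  classical
  have hE := hC.toEvAx
  have hr := rank_step hC hρ
  have hrk : ∀ f, Rkd (La M) (Rn (sc n)) f := fun f => (hr f).choose_spec.2.rkd
  let ρ' : IFun M (Fn M) (La M) := lam (fun f => rk (La M) (Rn (sc n)) f) (by fun_prop)
  have hρ' : ∀ f, ρ' f = rk (La M) (Rn (sc n)) f := fun _ => rfl
  have h1 : ∀ f g, ρ' f < ρ' g ↔ ltn (sc n) f g := by
    intro f g
    constructor
    · intro h
      rcases ltn_total hE (sc n) f g with h2 | h2 | h2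
      · exact h2
      · exact absurd h (by rw [hρ', hρ', rk_congr h2]; exact lt_irrefl _)
      · exact absurd h (not_lt.2 (rk_lt (hrk f) h2).le)
    · intro h; exact rk_lt (hrk g) h
  have hlt : ∀ f, ρ' f < alL (sc (sc n)) := by
    intro f
    obtain ⟨d, hd, hd'⟩ := hr f
    exact lt_of_le_of_lt hd'.rk_le hd
  refine ⟨ρ', h1, fun a => ⟨fun ⟨f, hf⟩ => hf ▸ hlt f, fun ha => ?_⟩⟩
  by_contra hno
  push Not at hno
  -- everything is below `a`
  have hlta : ∀ f, ρ' f < a := by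
    intro f
    by_contra h
    obtain ⟨g, _, hg⟩ := exists_rk_eq (hrk f) (not_lt.1 h)
    exact hno g hg
  -- an injection of the classes into `ω_{n+1}`
  obtain ⟨f0, hf0⟩ := exists_cov_La ha
  let e : IFun M (La M) (La M) := lam (fun d => lst M (fun x => f0 x = d)) (by fun_prop)
  have he1 : ∀ d, d < a → f0 (e d) = d := by
    intro d hd
    obtain ⟨x, _, hx⟩ := hf0 d hd
    exact lst_spec (P := fun x => f0 x = d) (by fun_prop) ⟨x, hx⟩
  have he2 : ∀ d, d < a → e d < alL (sc n) := by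
    intro d hd
    obtain ⟨x, hx, hx'⟩ := hf0 d hd
    exact lt_of_le_of_lt (lst_le (P := fun x => f0 x = d) (by fun_prop) hx') hx
  let E : IFun M (Fn M) (La M) := lam (fun f => e (ρ' f)) (by fun_prop)
  have hE1 : ∀ f g, ltn (sc n) f g → E f ≠ E g := by
    intro f g h hfg
    have h2 : ρ' f = ρ' g := by
      rw [← he1 _ (hlta f), ← he1 _ (hlta g)]
      exact congrArg (fun x => f0 x) hfg
    exact absurd ((h1 f g).2 h) (by rw [h2]; exact lt_irrefl _)
  have hE2 : ∀ f, E f < alL (sc n) := fun f => he2 _ (hlta f)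
  have hE3 : ∀ f g, eqn (sc n) f g → E f = E g := by
    intro f g h
    show e (ρ' f) = e (ρ' g)
    rw [hρ', hρ', rk_congr h]
  obtain ⟨hf, hhf, hcase⟩ := hC.pairs n (lam (fun p => E p.1 < E p.2) (by fun_prop))
    (fun F F' G G' h h' h'' => by
      show E F' < E G'
      rw [← hE3 _ _ h, ← hE3 _ _ h']
      exact h'')
  rcases hcase with hcase | hcase
  · -- increasing
    have hinc : ∀ z z', ltn (sc n) z z' → len (sc n) z' (top M) → E (hf z) < E (hf z') := hcase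
    have hbtop : ∀ t, ltn (sc n) (bs t) (top M) := by
      intro t
      show AE (sc n) (fun w => (bs t) w < (top M) w)
      rw [AE_sc (by fun_prop)]
      refine AE.of_forall (by fun_prop) fun s => ?_
      simp only [bs_pw, top_pw]
      exact Ev.gt _
    have hbs : ∀ t t', ltn n t t' → ltn (sc n) (bs t) (bs t') := by
      intro t t' h
      show AE (sc n) (fun w => (bs t) w < (bs t') w)
      rw [AE_sc (by fun_prop)]
      refine AE.mono (by fun_prop) (by fun_prop) (fun s hs => ?_) h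
      simp only [bs_pw]
      exact Ev.of_forall fun _ => hs
    let m : La M → La M := fun a => lst M (fun b => ∃ t, ρ t = a ∧ E (hf (bs t)) = b)
    have hm : IF M m := by
      show IF M (fun a : La M => lst M (fun b : La M => ∃ t, ρ t = a ∧ E (hf (bs t)) = b))
      fun_prop
    have hms : ∀ a, a < alL (sc n) → ∃ t, ρ t = a ∧ E (hf (bs t)) = m a := by
      intro a ha
      obtain ⟨t, ht⟩ := (hρ.2 a).2 ha
      exact lst_spec (P := fun b => ∃ t, ρ t = a ∧ E (hf (bs t)) = b) (by fun_prop)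
        ⟨_, t, ht, rfl⟩
    have hmle : ∀ t, m (ρ t) ≤ E (hf (bs t)) := fun t =>
      lst_le (P := fun b => ∃ t', ρ t' = ρ t ∧ E (hf (bs t')) = b) (by fun_prop) ⟨t, rfl, rfl⟩
    have hmono : ∀ a b, a < b → b < alL (sc n) → m a < m b := by
      intro a b hab hb
      obtain ⟨t, ht, ht'⟩ := hms a (hab.trans hb)
      obtain ⟨s, hs, hs'⟩ := hms b hb
      have h2 : ltn n t s := (hρ.1 t s).1 (by rw [ht, hs]; exact hab)
      rw [← ht', ← hs']
      exact hinc _ _ (hbs _ _ h2) (hbtop s).len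
    have hge : ∀ a, a < alL (sc n) → a ≤ m a := by
      by_contra h
      push Not at h
      obtain ⟨a, ⟨ha1, ha2⟩, hmin⟩ := IWO.least (M := M) (fun a => a < alL (sc n) ∧ m a < a)
        (by fun_prop) h
      exact not_le.2 ha2 (hmin (m a) ⟨ha2.trans ha1, hmono _ _ ha2 ha1⟩)
    have h3 := hE2 (hf (top M))
    obtain ⟨t, ht, ht'⟩ := hms _ h3
    have h4 : E (hf (bs t)) < E (hf (top M)) := hinc _ _ (hbtop t)
      (AE.of_forall (by fun_prop) fun _ => le_rfl)
    rw [ht'] at h4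
    exact not_le.2 h4 (hge _ h3)
  · -- decreasing
    have hdec : ∀ z z', ltn (sc n) z z' → len (sc n) z' (top M) → E (hf z') < E (hf z) := by
      intro z z' h h'
      refine lt_of_le_of_ne (not_lt.1 (hcase z z' h h')) fun h2 => ?_
      exact hE1 _ _ (hhf z z' h h') h2.symm
    have hlt' : ∀ k : N M, ltn (sc n) (lam (fun _ => nat k) (by fun_prop)) (lam (fun _ => nat (sc k)) (by fun_prop)) :=
      fun k => AE.of_forall (by fun_prop) fun _ => nat_lt.2 (N.lt_sc_self k)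
    have hle' : ∀ k : N M, len (sc n) (lam (fun _ => nat k) (by fun_prop)) (top M) := by
      intro k
      show AE (sc n) (fun w => nat k ≤ (top M) w)
      rw [AE_sc (by fun_prop)]
      refine AE.of_forall (by fun_prop) fun s => ?_
      simp only [top_pw]
      exact (Ev.gt _).mono fun _ h => le_of_lt h
    obtain ⟨b, ⟨k, hk⟩, hmin⟩ := IWO.least (M := M)
      (fun b : La M => ∃ k : N M, E (hf (lam (fun _ => nat k) (by fun_prop))) = b) (by fun_prop) ⟨_, 0, rfl⟩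
    have h5 := hdec _ _ (hlt' k) (hle' (sc k))
    rw [hk] at h5
    exact not_le.2 h5 (hmin _ ⟨sc k, rfl⟩)

/-- the order type of the functions of `n` variables is `ω_{n+1}` -/
theorem J_all (hC : CIn M) : ∀ n : N M, ∃ ρ : IFun M (Fn M) (La M), Jr n ρ := by
  refine N.ind _ (by fun_prop) ⟨_, Jr_zero⟩ ?_
  rintro n ⟨ρ, hρ⟩
  exact Jr_step hC hρ

theorem Jr_unique {n : N M} {ρ ρ' : IFun M (Fn M) (La M)} (h : Jr n ρ) (h' : Jr n ρ') :
    ρ = ρ' := by
  have key : ∀ ρ ρ' : IFun M (Fn M) (La M), Jr n ρ → Jr n ρ' → ∀ f, ρ f ≤ ρ' f := by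
    intro ρ ρ' h h' f
    by_contra hf
    rw [not_le] at hf
    obtain ⟨c, ⟨y, hy, hyc⟩, hmin⟩ := IWO.least (M := M) (fun c => ∃ y, ρ y = c ∧ ρ' y < c)
      (by fun_prop) ⟨ρ f, f, rfl, hf⟩
    subst hy
    obtain ⟨z, hz⟩ := (h.2 (ρ' y)).2 (hyc.trans ((h.2 _).1 ⟨y, rfl⟩))
    have h1 : ρ z < ρ y := by rw [hz]; exact hyc
    have h2 : ρ' z < ρ' y := (h'.1 z y).2 ((h.1 z y).1 h1)
    have h3 := hmin (ρ' y) ⟨z, hz, h2⟩
    exact not_le.2 hyc h3
  exact IFun.ext fun f => le_antisymm (key ρ ρ' h h' f) (key ρ' ρ h' h f)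

/-- the ordinal of the function `f` of `n` variables -/
noncomputable def rkn (n : N M) (f : Fn M) : La M :=
  lst M (fun a => ∃ ρ : IFun M (Fn M) (La M), Jr n ρ ∧ ρ f = a)

@[fun_prop] theorem IF.rkn {α : Type} [Cl M α] {n : α → N M} {f : α → Fn M}
    (hn : IF M n) (hf : IF M f) : IF M (fun x => rkn (n x) (f x)) := by
  unfold MG.rkn; fun_prop

theorem rkn_eq {n : N M} {ρ : IFun M (Fn M) (La M)} (h : Jr n ρ) (f : Fn M) : rkn n f = ρ f := by
  obtain ⟨ρ', h1, h2⟩ : ∃ ρ' : IFun M (Fn M) (La M), Jr n ρ' ∧ ρ' f = rkn n f :=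
    lst_spec (P := fun a => ∃ ρ : IFun M (Fn M) (La M), Jr n ρ ∧ ρ f = a) (by fun_prop)
      ⟨_, ρ, h, rfl⟩
  rw [← h2, Jr_unique h h1]

theorem rkn_lt (hC : CIn M) {n : N M} {f g : Fn M} : rkn n f < rkn n g ↔ ltn n f g := by
  obtain ⟨ρ, hρ⟩ := J_all hC n
  rw [rkn_eq hρ, rkn_eq hρ]
  exact hρ.1 f g

theorem rkn_eq_iff (hC : CIn M) {n : N M} {f g : Fn M} : rkn n f = rkn n g ↔ eqn n f g := by
  obtain ⟨ρ, hρ⟩ := J_all hC n
  rw [rkn_eq hρ, rkn_eq hρ]
  exact hρ.eq_iff hC.toEvAx f g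

theorem rkn_le (hC : CIn M) {n : N M} {f g : Fn M} : rkn n f ≤ rkn n g ↔ len n f g := by
  constructor
  · intro h
    exact len_of_not_ltn hC.toEvAx fun h' => not_lt.2 h ((rkn_lt hC).2 h')
  · intro h
    refine not_lt.1 fun h' => ?_
    exact ltn.irrefl hC.toEvAx (h.trans_ltn ((rkn_lt hC).1 h'))

theorem exists_rkn (hC : CIn M) {n : N M} {a : La M} : (∃ f, rkn n f = a) ↔ a < alL (sc n) := by
  obtain ⟨ρ, hρ⟩ := J_all hC n
  rw [← hρ.2 a]
  simp only [rkn_eq hρ]

theorem rkn_lt_alL (hC : CIn M) (n : N M) (f : Fn M) : rkn n f < alL (sc n) :=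
  (exists_rkn hC).1 ⟨f, rfl⟩

/-- choice of countably many representatives -/
theorem exists_Rep (hC : CIn M) (c : IFun M (N M) (N M)) (a : IFun M (N M) (La M))
    (h : ∀ k, a k < alL (sc (c k))) :
    ∃ F : IFun M (N M) (Fn M), ∀ k, rkn (c k) (F k) = a k := by
  obtain ⟨K, hK, hKr⟩ := exists_Kf hC
  have hK1 : IF M (fun q : N M × Re M => K (c q.1) q.2) :=
    hK.comp (g := fun q : N M × Re M => (c q.1, q.2)) (by fun_prop)
  obtain ⟨Y, hY⟩ := hC.acw (lam (fun q : N M × Re M => rkn (c q.1) (K (c q.1) q.2) = a q.1) (by fun_prop))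
    (fun k => by
      obtain ⟨f, hf⟩ := (exists_rkn hC).2 (h k)
      obtain ⟨z, hz⟩ := hKr (c k) f
      exact ⟨z, by
        show rkn (c k) (K (c k) z) = a k
        rw [← hf]
        exact (rkn_eq_iff hC).2 hz.symm⟩)
  have hK2 : IF M (fun k : N M => K (c k) (Y k)) :=
    hK.comp (g := fun k : N M => (c k, Y k)) (by fun_prop)
  exact ⟨⟨_, hK2⟩, hY⟩

end Pool.Agent.Helper48.MG
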