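import Pool.Agent.Helper48.MG.Core

/-!
# The calculus of the iterated filters `AE n` and the comparison of functions

Everything follows from three properties of the filter `Ev` (collected in the structure `EvAx`).
-/

set_option autoImplicit false

namespace Pool.Agent.Helper48.MG

variable {M : Type} [ZFM M]

/-- the properties of `Ev` used here: an ultrafilter (on the internal predicates), proper and
countably complete -/
structure EvAx (M : Type) [ZFM M] : Prop where
  dich : ∀ {Q : W M → Prop}, IF M Q → Ev Q ∨ Ev (fun a => ¬ Q a)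
  ex : ∀ {Q : W M → Prop}, Ev Q → ∃ a, Q a
  all_nat : ∀ {Q : N M → W M → Prop}, IF M (fun q : N M × W M => Q q.1 q.2) →
    (∀ n, Ev (Q n)) → Ev (fun a => ∀ n, Q n a)

theorem Ev.of_forall {Q : W M → Prop} (h : ∀ a, Q a) : Ev Q :=
  ⟨lam (fun a => a) (by fun_prop), fun a _ => h a⟩

theorem Ev.gt (b : W M) : Ev (fun g => b < g) := by
  refine ⟨lam (fun _ => b) (by fun_prop), fun a ha => ?_⟩
  obtain ⟨⟨c, hc⟩, h⟩ := ha
  exact h c hc

theorem AE.mono {n : N M} {P Q : W M → Prop} (hP : IF M P) (hQ : IF M Q)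
    (h : ∀ t, P t → Q t) (hn : AE n P) : AE n Q := by
  have key : ∀ n : N M, ∀ P Q : IFun M (W M) Prop, (∀ t, P t → Q t) →
      AE n (fun t => P t) → AE n (fun t => Q t) := by
    refine N.ind _ (by fun_prop) ?_ ?_
    · intro P Q h hP
      rw [AE_zero (by fun_prop)] at hP ⊢
      exact h _ hP
    · intro n ih P Q h hP
      rw [AE_sc (by fun_prop)] at hP ⊢
      exact ih (lam (fun t => Ev (fun g => P (pw t g))) (by fun_prop)) (lam (fun t => Ev (fun g => Q (pw t g))) (by fun_prop))
        (fun t ht => ht.mono fun g hg => h _ hg) hP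
  exact key n ⟨P, hP⟩ ⟨Q, hQ⟩ h hn

theorem AE.of_forall {n : N M} {Q : W M → Prop} (hQ : IF M Q) (h : ∀ t, Q t) : AE n Q := by
  have key : ∀ n : N M, ∀ Q : IFun M (W M) Prop, (∀ t, Q t) → AE n (fun t => Q t) := by
    refine N.ind _ (by fun_prop) ?_ ?_
    · intro Q h
      rw [AE_zero (by fun_prop)]
      exact h _
    · intro n ih Q h
      rw [AE_sc (by fun_prop)]
      exact ih (lam (fun t => Ev (fun g => Q (pw t g))) (by fun_prop)) fun t => Ev.of_forall fun g => h _
  exact key n ⟨Q, hQ⟩ h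

theorem AE.and {n : N M} {P Q : W M → Prop} (hP : IF M P) (hQ : IF M Q)
    (h1 : AE n P) (h2 : AE n Q) : AE n (fun t => P t ∧ Q t) := by
  have key : ∀ n : N M, ∀ P Q : IFun M (W M) Prop, AE n (fun t => P t) →
      AE n (fun t => Q t) → AE n (fun t => P t ∧ Q t) := by
    refine N.ind _ (by fun_prop) ?_ ?_
    · intro P Q hP hQ
      rw [AE_zero (by fun_prop)] at hP hQ ⊢
      exact ⟨hP, hQ⟩
    · intro n ih P Q hP hQ
      rw [AE_sc (by fun_prop)] at hP hQ ⊢
      refine AE.mono (by fun_prop) (by fun_prop) ?_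
        (ih (lam (fun t => Ev (fun g => P (pw t g))) (by fun_prop)) (lam (fun t => Ev (fun g => Q (pw t g))) (by fun_prop)) hP hQ)
      rintro t ⟨h, h'⟩
      exact Ev.and h h'
  exact key n ⟨P, hP⟩ ⟨Q, hQ⟩ h1 h2

theorem AE.dich (hE : EvAx M) {n : N M} {Q : W M → Prop} (hQ : IF M Q) :
    AE n Q ∨ AE n (fun t => ¬ Q t) := by
  have key : ∀ n : N M, ∀ Q : IFun M (W M) Prop, AE n (fun t => Q t) ∨ AE n (fun t => ¬ Q t) := by
    refine N.ind _ (by fun_prop) ?_ ?_
    · intro Q
      rw [AE_zero (by fun_prop), AE_zero (by fun_prop)]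
      exact Classical.em _
    · intro n ih Q
      rw [AE_sc (by fun_prop), AE_sc (by fun_prop)]
      rcases ih (lam (fun t => Ev (fun g => Q (pw t g))) (by fun_prop)) with h | h
      · exact Or.inl h
      · right
        refine AE.mono (by fun_prop) (by fun_prop) ?_ h
        intro t ht
        exact (hE.dich (Q := fun g => Q (pw t g)) (by fun_prop)).resolve_left ht
  exact key n ⟨Q, hQ⟩

theorem AE.ex (hE : EvAx M) {n : N M} {Q : W M → Prop} (hQ : IF M Q) (h : AE n Q) :
    ∃ t, Q t := by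
  have key : ∀ n : N M, ∀ Q : IFun M (W M) Prop, AE n (fun t => Q t) → ∃ t, Q t := by
    refine N.ind _ (by fun_prop) ?_ ?_
    · intro Q h
      rw [AE_zero (by fun_prop)] at h
      exact ⟨_, h⟩
    · intro n ih Q h
      rw [AE_sc (by fun_prop)] at h
      obtain ⟨t, ht⟩ := ih (lam (fun t => Ev (fun g => Q (pw t g))) (by fun_prop)) h
      obtain ⟨g, hg⟩ := hE.ex ht
      exact ⟨_, hg⟩
  exact key n ⟨Q, hQ⟩ h

theorem AE.all_nat (hE : EvAx M) {n : N M} {Q : N M → W M → Prop}
    (hQ : IF M (fun q : N M × W M => Q q.1 q.2)) (h : ∀ k, AE n (Q k)) :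
    AE n (fun t => ∀ k, Q k t) := by
  have key : ∀ n : N M, ∀ Q : IFun M (N M × W M) Prop, (∀ k, AE n (fun t => Q (k, t))) →
      AE n (fun t => ∀ k, Q (k, t)) := by
    refine N.ind _ (by fun_prop) ?_ ?_
    · intro Q h
      rw [AE_zero (by fun_prop)]
      intro k
      have := h k
      rwa [AE_zero (by fun_prop)] at this
    · intro n ih Q h
      rw [AE_sc (by fun_prop)]
      refine AE.mono (by fun_prop) (by fun_prop) ?_
        (ih (lam (fun p : N M × W M => Ev (fun g => Q (p.1, pw p.2 g))) (by fun_prop)) fun k => ?_)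
      · intro t ht
        exact hE.all_nat (Q := fun k g => Q (k, pw t g)) (by fun_prop) ht
      · have := h k
        rwa [AE_sc (by fun_prop)] at this
  exact key n ⟨_, hQ⟩ h

theorem AE.not_both (hE : EvAx M) {n : N M} {P Q : W M → Prop} (hP : IF M P) (hQ : IF M Q)
    (h1 : AE n P) (h2 : AE n Q) (h : ∀ t, P t → ¬ Q t) : False := by
  obtain ⟨t, h3, h4⟩ := AE.ex hE (by fun_prop) (AE.and hP hQ h1 h2)
  exact h t h3 h4

/-! ### comparison -/

theorem ltn.trans {n : N M} {f g h : Fn M} (h1 : ltn n f g) (h2 : ltn n g h) : ltn n f h := by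
  refine AE.mono (P := fun t => f t < g t ∧ g t < h t) (by fun_prop) (by fun_prop)
    (fun t ht => ht.1.trans ht.2) (AE.and (by fun_prop) (by fun_prop) h1 h2)

theorem ltn.congr {n : N M} {f g f' g' : Fn M} (hf : eqn n f f') (hg : eqn n g g')
    (h : ltn n f g) : ltn n f' g' := by
  refine AE.mono (P := fun t => (f t = f' t ∧ g t = g' t) ∧ f t < g t) (by fun_prop)
    (by fun_prop) (fun t ht => ?_) (AE.and (by fun_prop) (by fun_prop)
      (AE.and (by fun_prop) (by fun_prop) hf hg) h)
  rw [← ht.1.1, ← ht.1.2]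
  exact ht.2

theorem eqn.refl (n : N M) (f : Fn M) : eqn n f f := AE.of_forall (by fun_prop) fun _ => rfl

theorem eqn.symm {n : N M} {f g : Fn M} (h : eqn n f g) : eqn n g f :=
  AE.mono (by fun_prop) (by fun_prop) (fun _ ht => Eq.symm ht) h

theorem eqn.trans {n : N M} {f g h : Fn M} (h1 : eqn n f g) (h2 : eqn n g h) : eqn n f h := by
  refine AE.mono (P := fun t => f t = g t ∧ g t = h t) (by fun_prop) (by fun_prop)
    (fun t ht => ht.1.trans ht.2) (AE.and (by fun_prop) (by fun_prop) h1 h2)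

theorem ltn.irrefl (hE : EvAx M) {n : N M} {f : Fn M} (h : ltn n f f) : False := by
  obtain ⟨t, ht⟩ := AE.ex hE (by fun_prop) h
  exact lt_irrefl _ ht

theorem ltn.not_eqn (hE : EvAx M) {n : N M} {f g : Fn M} (h : ltn n f g) (h' : eqn n f g) :
    False :=
  ltn.irrefl hE (h.congr (eqn.refl n f) h'.symm)

theorem ltn.asymm (hE : EvAx M) {n : N M} {f g : Fn M} (h : ltn n f g) (h' : ltn n g f) :
    False :=
  ltn.irrefl hE (h.trans h')

theorem ltn_total (hE : EvAx M) (n : N M) (f g : Fn M) :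
    ltn n f g ∨ eqn n f g ∨ ltn n g f := by
  rcases AE.dich hE (n := n) (Q := fun t => f t < g t) (by fun_prop) with h | h
  · exact Or.inl h
  · right
    rcases AE.dich hE (n := n) (Q := fun t => f t = g t) (by fun_prop) with h' | h'
    · exact Or.inl h'
    · right
      refine AE.mono (P := fun t => (¬ f t < g t) ∧ ¬ f t = g t) (by fun_prop) (by fun_prop)
        (fun t ht => ?_) (AE.and (by fun_prop) (by fun_prop) h h')
      exact lt_of_le_of_ne (not_lt.1 ht.1) fun h => ht.2 h.symm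

theorem len_of_not_ltn (hE : EvAx M) {n : N M} {f g : Fn M} (h : ¬ ltn n f g) : len n g f := by
  refine AE.mono (by fun_prop) (by fun_prop) (fun t ht => ?_)
    ((AE.dich hE (n := n) (Q := fun t => f t < g t) (by fun_prop)).resolve_left h)
  exact not_lt.1 ht

theorem ltn.len {n : N M} {f g : Fn M} (h : ltn n f g) : len n f g :=
  AE.mono (by fun_prop) (by fun_prop) (fun _ ht => le_of_lt ht) h

theorem ltn.trans_len {n : N M} {f g h : Fn M} (h1 : ltn n f g) (h2 : MG.len n g h) :
    ltn n f h := by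
  refine AE.mono (P := fun t => f t < g t ∧ g t ≤ h t) (by fun_prop) (by fun_prop)
    (fun t ht => lt_of_lt_of_le ht.1 ht.2) (AE.and (by fun_prop) (by fun_prop) h1 h2)

theorem len.trans_ltn {n : N M} {f g h : Fn M} (h1 : MG.len n f g) (h2 : ltn n g h) :
    ltn n f h := by
  refine AE.mono (P := fun t => f t ≤ g t ∧ g t < h t) (by fun_prop) (by fun_prop)
    (fun t ht => lt_of_le_of_lt ht.1 ht.2) (AE.and (by fun_prop) (by fun_prop) h1 h2)

theorem len.trans {n : N M} {f g h : Fn M} (h1 : MG.len n f g) (h2 : MG.len n g h) :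
    MG.len n f h := by
  refine AE.mono (P := fun t => f t ≤ g t ∧ g t ≤ h t) (by fun_prop) (by fun_prop)
    (fun t ht => le_trans ht.1 ht.2) (AE.and (by fun_prop) (by fun_prop) h1 h2)

/-- there are no infinite descending sequences of functions -/
theorem no_desc (hE : EvAx M) (n : N M) (F : IFun M (N M) (Fn M)) :
    ∃ k, ¬ ltn n (F (sc k)) (F k) := by
  by_contra hcon
  push Not at hcon
  obtain ⟨t, ht⟩ := AE.ex hE (by fun_prop) (AE.all_nat hE (n := n)
    (Q := fun k t => (F (sc k)) t < (F k) t) (by fun_prop) hcon)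
  obtain ⟨a, ⟨k, hk⟩, hmin⟩ := IWO.least (M := M) (fun a : W M => ∃ k, (F k) t = a) (by fun_prop)
    ⟨_, 0, rfl⟩
  subst hk
  exact not_le.2 (ht k) (hmin _ ⟨sc k, rfl⟩)

end Pool.Agent.Helper48.MG
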