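import Pool.Agent.Helper48.MG.PTs
import Pool.Agent.Helper98.MG.BlockB
import Pool.Agent.Helper48.MG.Trans

/-!
# Block C and D: the inputs, the set `A`, the enumeration of its bounded countable subsets
-/

set_option autoImplicit false

namespace Pool.Agent.Helper48.MG

variable {M : Type} [ZFM M]
variable {α β γ δ : Type} [Cl M α] [Cl M β] [Cl M γ] [Cl M δ]

theorem len_refl (n : N M) (f : Fn M) : len n f f := AE.of_forall (by fun_prop) fun _ => le_rfl

theorem eqn.len {n : N M} {f g : Fn M} (h : eqn n f g) : len n f g :=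
  AE.mono (by fun_prop) (by fun_prop) (fun _ h => le_of_eq h) h

/-- two functions are realized as the components with numbers `0` and `1` -/
theorem realize2 [AD M] {f : Fn M} {k : IFun M (Ps M) (W M)} (hk : KK (CP f) k) (n : N M)
    {z z' : Fn M} (h : ltn (sc n) z z') (h' : len (sc n) z' (top M)) :
    ∃ G, CT (lo0 M) (CP f) G ∧ eqn (sc n) (cmp G n (w0 M)) (hz k n z) ∧
      eqn (sc n) (cmp G n (sW (w0 M))) (hz k n z') := by
  classical
  have h01 : w0 M < sW (w0 M) := lt_sW_self _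
  have h12 : sW (w0 M) < sW (sW (w0 M)) := lt_sW_self _
  obtain ⟨G, hG, hG'⟩ := realize hk (sc n) (lam (fun m => if m = n then sW (sW (w0 M)) else w0 M) (by fun_prop))
    (lam (fun q : N M × W M => if q.2 = w0 M then z else z') (by fun_prop)) (by
      intro m i j hm hij hj
      have hj' : j < (if m = n then sW (sW (w0 M)) else w0 M) := hj
      by_cases hmn : m = n
      · subst hmn
        rw [if_pos rfl] at hj'
        have hj1 : j = sW (w0 M) := by
          refine le_antisymm (lt_sW.1 hj') (sW_le.2 (lt_of_le_of_lt (w0_le i) hij))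
        subst hj1
        have hi : i = w0 M := le_antisymm (lt_sW.1 hij) (w0_le i)
        subst hi
        show ltn (sc m) (if w0 M = w0 M then z else z') (if sW (w0 M) = w0 M then z else z')
        rw [if_pos rfl, if_neg (sW_ne _)]
        exact h
      · rw [if_neg hmn] at hj'
        exact (not_le.2 hj' (w0_le j)).elim) (by
      intro m i hm hi
      have hi' : i < (if m = n then sW (sW (w0 M)) else w0 M) := hi
      by_cases hmn : m = n
      · subst hmn
        show len (sc m) (if i = w0 M then z else z') (top M)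
        by_cases h0 : i = w0 M
        · rw [if_pos h0]
          exact h.len.trans h'
        · rw [if_neg h0]
          exact h'
      · rw [if_neg hmn] at hi'
        exact (not_le.2 hi' (w0_le i)).elim)
  refine ⟨G, hG, ?_, ?_⟩
  · have h1 := hG' n (w0 M) (N.lt_sc_self n) (by
      show w0 M < (if n = n then sW (sW (w0 M)) else w0 M)
      rw [if_pos rfl]
      exact h01.trans h12)
    have h2 : (lam (M := M) (fun q : N M × W M => if q.2 = w0 M then z else z') (by fun_prop)).toFun (n, w0 M) = z :=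
      if_pos rfl
    rw [h2] at h1
    exact h1
  · have h1 := hG' n (sW (w0 M)) (N.lt_sc_self n) (by
      show sW (w0 M) < (if n = n then sW (sW (w0 M)) else w0 M)
      rw [if_pos rfl]
      exact h12)
    have h2 : (lam (M := M) (fun q : N M × W M => if q.2 = w0 M then z else z') (by fun_prop)).toFun
        (n, sW (w0 M)) = z' :=
      if_neg (sW_ne _)
    rw [h2] at h1
    exact h1

/-- changing `G` on nothing changes the components only modulo `eqn` -/
theorem cmp_eqn {G G' : G2 M} (h : Ev (fun c => ∀ s, s < c → G (c, s) = G' (c, s))) (n : N M)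
    (i : W M) : eqn (sc n) (cmp G n i) (cmp G' n i) := by
  unfold eqn
  rw [AE_sc (by fun_prop)]
  refine AE.of_forall (by fun_prop) fun t => ?_
  refine (h.and (Ev.gt (tri n t i))).mono ?_
  rintro c ⟨h1, h2⟩
  rw [cmp_pw, cmp_pw]
  exact h1 _ h2

theorem pairs_ad [AD M] (n : N M) (R : IFun M (Fn M × Fn M) Prop)
    (hR : ∀ F F' G G', eqn (sc n) F F' → eqn (sc n) G G' → R (F, G) → R (F', G')) :
    ∃ hf : IFun M (Fn M) (Fn M),
      (∀ z z', ltn (sc n) z z' → len (sc n) z' (top M) → ltn (sc n) (hf z) (hf z')) ∧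
      ((∀ z z', ltn (sc n) z z' → len (sc n) z' (top M) → R (hf z, hf z')) ∨
        ∀ z z', ltn (sc n) z z' → len (sc n) z' (top M) → ¬ R (hf z, hf z')) := by
  rcases PT (lo0 M) ilo_lo0
      (lam (fun p : W M × G2 M => R (cmp p.2 n (w0 M), cmp p.2 n (sW (w0 M)))) (by fun_prop))
      (fun d d' G _ h => h) (fun d G G' h h' => by
        have h'' : R (cmp G n (w0 M), cmp G n (sW (w0 M))) := h'
        show R (cmp G' n (w0 M), cmp G' n (sW (w0 M)))
        exact hR _ _ _ _ (cmp_eqn h _ _) (cmp_eqn h _ _) h'') with ⟨d, f, hf⟩ | ⟨f, hf⟩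
  · obtain ⟨k, hk⟩ := exists_KK f
    refine ⟨lam (fun z => hz k n z) (by fun_prop), fun z z' h h' => ltn_hz hk h h', Or.inl fun z z' h h' => ?_⟩
    obtain ⟨G, hG, h1, h2⟩ := realize2 hk n h h'
    have h3 : R (cmp G n (w0 M), cmp G n (sW (w0 M))) := hf G hG
    exact hR _ _ _ _ h1 h2 h3
  · obtain ⟨k, hk⟩ := exists_KK f
    refine ⟨lam (fun z => hz k n z) (by fun_prop), fun z z' h h' => ltn_hz hk h h', Or.inr fun z z' h h' h4 => ?_⟩
    obtain ⟨G, hG, h1, h2⟩ := realize2 hk n h h'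
    exact hf (w0 M) G hG (hR _ _ _ _ h1.symm h2.symm h4)

/-- all inputs of the block C -/
theorem cIn_ad [AD M] : CIn M where
  toEvAx := evAx_ad
  acw := acw
  kf := exists_kf
  pairs := pairs_ad

/-! ### functions forgetting the last variable -/

theorem bs_lt_top (n : N M) (t : Fn M) : ltn (sc n) (bs t) (top M) := by
  show AE (sc n) (fun w => (bs t) w < (top M) w)
  rw [AE_sc (by fun_prop)]
  refine AE.of_forall (by fun_prop) fun s => ?_
  simp only [bs_pw, top_pw]
  exact Ev.gt _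

theorem ltn_bs {n : N M} {t t' : Fn M} (h : ltn n t t') : ltn (sc n) (bs t) (bs t') := by
  show AE (sc n) (fun w => (bs t) w < (bs t') w)
  rw [AE_sc (by fun_prop)]
  refine AE.mono (by fun_prop) (by fun_prop) (fun s hs => ?_) h
  simp only [bs_pw]
  exact Ev.of_forall fun _ => hs

theorem eqn_bs {n : N M} {t t' : Fn M} (h : eqn n t t') : eqn (sc n) (bs t) (bs t') := by
  show AE (sc n) (fun w => (bs t) w = (bs t') w)
  rw [AE_sc (by fun_prop)]
  refine AE.mono (by fun_prop) (by fun_prop) (fun s hs => ?_) h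
  simp only [bs_pw]
  exact Ev.of_forall fun _ => hs

/-! ### the set `A` -/

/-- the ordinal of `h_z` for a function `z` of `n` variables -/
noncomputable def av (k : IFun M (Ps M) (W M)) (n : N M) (z : Fn M) : La M :=
  rkn (sc n) (hz k n (bs z))

@[fun_prop] theorem IF.av {k : IFun M (Ps M) (W M)} {n : α → N M} {z : α → Fn M} (hn : IF M n)
    (hz0 : IF M z) : IF M (fun x => av k (n x) (z x)) := by
  unfold MG.av; fun_prop

/-- the set `A` -/
noncomputable def AA (k : IFun M (Ps M) (W M)) : IFun M (La M) Prop :=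
  lam (fun a => ∃ n z, av k n z = a) (by fun_prop)

theorem AA_iff {k : IFun M (Ps M) (W M)} {a : La M} : AA k a ↔ ∃ n z, av k n z = a := Iff.rfl

section
variable [AD M] {f : Fn M} {k : IFun M (Ps M) (W M)} (hk : KK (CP f) k)
include hk

theorem av_lt_of {n : N M} {z z' : Fn M} (h : ltn n z z') : av k n z < av k n z' :=
  (rkn_lt cIn_ad).2 (ltn_hz hk (ltn_bs h) (bs_lt_top n z').len)

theorem av_lt {n : N M} {z z' : Fn M} : av k n z < av k n z' ↔ ltn n z z' := by
  refine ⟨fun h => ?_, av_lt_of hk⟩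
  rcases ltn_total evAx_ad n z z' with h1 | h1 | h1
  · exact h1
  · have h2 : av k n z = av k n z' := (rkn_eq_iff cIn_ad).2 (eqn_hz (eqn_bs h1))
    rw [h2] at h
    exact (lt_irrefl _ h).elim
  · exact (lt_asymm h (av_lt_of hk h1)).elim

theorem av_eq {n : N M} {z z' : Fn M} : av k n z = av k n z' ↔ eqn n z z' := by
  refine ⟨fun h => ?_, fun h => (rkn_eq_iff cIn_ad).2 (eqn_hz (eqn_bs h))⟩
  rcases ltn_total evAx_ad n z z' with h1 | h1 | h1
  · exact ((av_lt_of hk h1).ne h).elim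
  · exact h1
  · exact ((av_lt_of hk h1).ne h.symm).elim

omit hk in
theorem av_lt_alL (n : N M) (z : Fn M) : av k n z < alL (sc (sc n)) := rkn_lt_alL cIn_ad _ _

omit hk in
theorem alL_le_top (n : N M) : alL (sc n) ≤ rkn (sc n) (top M) := by
  -- the ranks of the functions `bs z` are at least the rank of `z`
  have h1 : ∀ a, a < alL (sc n) → ∀ z : Fn M, rkn n z = a → a ≤ rkn (sc n) (bs z) := by
    by_contra h
    push Not at h
    obtain ⟨a, ⟨ha1, z, hz1, hz2⟩, hmin⟩ := IWO.least (M := M) (fun a : La M => a < alL (sc n) ∧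
      ∃ z : Fn M, rkn n z = a ∧ rkn (sc n) (bs z) < a) (by fun_prop) h
    obtain ⟨y, hy⟩ := (exists_rkn cIn_ad (n := n) (a := rkn (sc n) (bs z))).2 (hz2.trans ha1)
    have h2 : ltn n y z := (rkn_lt cIn_ad).1 (by rw [hy, hz1]; exact hz2)
    have h3 : rkn (sc n) (bs y) < rkn (sc n) (bs z) := (rkn_lt cIn_ad).2 (ltn_bs h2)
    exact not_le.2 hz2 (hmin _ ⟨hz2.trans ha1, y, hy, h3⟩)
  by_contra hlt
  rw [not_le] at hlt
  obtain ⟨z, hz⟩ := (exists_rkn cIn_ad (n := n)).2 hlt
  have h4 := h1 _ hlt z hz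
  exact not_le.2 ((rkn_lt cIn_ad).2 (bs_lt_top n z)) h4

theorem alL_lt_av (n : N M) (z : Fn M) : alL (sc n) < av k n z :=
  lt_of_le_of_lt (alL_le_top n) ((rkn_lt cIn_ad).2 (top_lt_hz hk (bs_lt_top n z).len))

theorem av_num {n n' : N M} {z z' : Fn M} (h : av k n z = av k n' z') : n = n' := by
  refine le_antisymm (not_lt.1 fun hlt => ?_) (not_lt.1 fun hlt => ?_)
  · have h1 := alL_lt_av hk n z
    rw [h] at h1
    have h2 := h1.trans (av_lt_alL n' z')
    rw [alL_lt, N.sc_lt_sc, N.lt_sc] at h2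
    exact not_le.2 hlt h2
  · have h1 := alL_lt_av hk n' z'
    rw [← h] at h1
    have h2 := h1.trans (av_lt_alL n z)
    rw [alL_lt, N.sc_lt_sc, N.lt_sc] at h2
    exact not_le.2 hlt h2

/-- the set `A` has cardinality `ℵ_ω` -/
theorem AA_inj : ∃ e : IFun M (La M) (La M), (∀ a b, e a = e b → a = b) ∧ ∀ a, AA k (e a) := by
  have he : IF M (fun a : La M => lst M (fun b : La M => ∃ n z, a < alL (sc n) ∧
      (∀ m, m < n → ¬ a < alL (sc m)) ∧ rkn n z = a ∧ av k n z = b)) := by fun_prop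
  have hs : ∀ a : La M, ∃ n z, a < alL (sc n) ∧ (∀ m, m < n → ¬ a < alL (sc m)) ∧ rkn n z = a ∧
      av k n z = lst M (fun b : La M => ∃ n z, a < alL (sc n) ∧
      (∀ m, m < n → ¬ a < alL (sc m)) ∧ rkn n z = a ∧ av k n z = b) := by
    intro a
    refine lst_spec (P := fun b : La M => ∃ n z, a < alL (sc n) ∧
      (∀ m, m < n → ¬ a < alL (sc m)) ∧ rkn n z = a ∧ av k n z = b) (by fun_prop) ?_
    obtain ⟨n0, hn0⟩ := exists_lt_alL a
    obtain ⟨n, hn, hmin⟩ := IWO.least (M := M) (fun n : N M => a < alL (sc n)) (by fun_prop)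
      ⟨n0, hn0.trans (alL_lt.2 (N.lt_sc_self _))⟩
    obtain ⟨z, hz⟩ := (exists_rkn cIn_ad).2 hn
    exact ⟨_, n, z, hn, fun m hm h => not_le.2 hm (hmin m h), hz, rfl⟩
  refine ⟨⟨_, he⟩, fun a b hab => ?_, fun a => ?_⟩
  · obtain ⟨n, z, h1, h2, h3, h4⟩ := hs a
    obtain ⟨n', z', h1', h2', h3', h4'⟩ := hs b
    have h5 : av k n z = av k n' z' := by
      rw [h4, h4']
      exact hab
    obtain rfl := av_num hk h5
    rw [← h3, ← h3']
    exact (rkn_eq_iff cIn_ad).2 ((av_eq hk).1 h5)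
  · obtain ⟨n, z, h1, h2, h3, h4⟩ := hs a
    exact ⟨n, z, h4⟩

/-- every bounded countable subset of `A` is realized by some `G` of correct type -/
theorem exists_pat (x : IFun M (La M) Prop) (hx : ∀ a, x a → AA k a) (hb : CB x) :
    ∃ (N0 : N M) (al : IFun M (N M) (W M)) (G : G2 M), CT (lo0 M) (CP f) G ∧
      ∀ a, x a ↔ ∃ n i, n < N0 ∧ i < al n ∧ rkn (sc n) (cmp G n i) = a := by
  obtain ⟨⟨b, hb⟩, e, he1, he2, he3⟩ := hb
  obtain ⟨N1, hN1⟩ := exists_lt_alL b
  -- the numbers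
  have hcI : IF M (fun j : N M => lst M (fun n : N M => ∃ z, av k n z = e j)) := by fun_prop
  obtain ⟨c, hc⟩ : ∃ c : IFun M (N M) (N M), ∀ j, ∃ z, av k (c j) z = e j :=
    ⟨⟨_, hcI⟩, fun j => lst_spec (P := fun n : N M => ∃ z, av k n z = e j) (by fun_prop)
      (hx _ (he1 j))⟩
  have hcN : ∀ j, c j < N1 := by
    intro j
    obtain ⟨z, hz⟩ := hc j
    have h1 := alL_lt_av hk (c j) z
    rw [hz] at h1
    have h2 := h1.trans ((hb _ (he1 j)).trans hN1)
    rw [alL_lt] at h2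
    exact (N.lt_sc_self _).trans h2
  -- representatives
  have haI : IF M (fun j : N M => lst M (fun d : La M => ∃ z, rkn (c j) z = d ∧
      av k (c j) z = e j)) := by fun_prop
  obtain ⟨a, ha⟩ : ∃ a : IFun M (N M) (La M), ∀ j, ∃ z, rkn (c j) z = a j ∧ av k (c j) z = e j :=
    ⟨⟨_, haI⟩, fun j => by
      obtain ⟨z, hz⟩ := hc j
      exact lst_spec (P := fun d : La M => ∃ z, rkn (c j) z = d ∧ av k (c j) z = e j)
        (by fun_prop) ⟨_, z, rfl, hz⟩⟩
  obtain ⟨F, hF⟩ := exists_Rep cIn_ad c a (fun j => by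
    obtain ⟨z, hz, _⟩ := ha j
    rw [← hz]
    exact rkn_lt_alL cIn_ad _ _)
  have hF' : ∀ j, av k (c j) (F j) = e j := by
    intro j
    obtain ⟨z, hz1, hz2⟩ := ha j
    rw [← hz2]
    exact (av_eq hk).2 ((rkn_eq_iff cIn_ad).1 ((hF j).trans hz1.symm))
  -- the ranks
  let R : IFun M (N M × N M) Prop := lam (fun p => c p.1 = c p.2 ∧ e p.1 < e p.2) (by fun_prop)
  have hR : ∀ i j, R (i, j) ↔ c i = c j ∧ e i < e j := fun _ _ => Iff.rfl
  have hRt : ∀ i j l, R (i, j) → R (j, l) → R (i, l) := by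
    intro i j l h h'
    rw [hR] at *
    exact ⟨h.1.trans h'.1, h.2.trans h'.2⟩
  have hRw : IWf R := by
    rintro P ⟨i, hi⟩
    obtain ⟨d, ⟨j, hj, rfl⟩, hmin⟩ := IWO.least (M := M) (fun d : La M => ∃ j, P j ∧ e j = d)
      (by fun_prop) ⟨_, i, hi, rfl⟩
    exact ⟨j, hj, fun l hl hPl => not_le.2 ((hR _ _).1 hl).2 (hmin _ ⟨l, hPl, rfl⟩)⟩
  have hr : ∀ j, Rkd (W M) R j := rkd_of_countable hRt hRw
    (fun _ => ⟨lam (fun n => n) (by fun_prop), fun y _ => ⟨y, rfl⟩⟩)
  have hrI : IF M (fun j : N M => rk (W M) R j) := by fun_prop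
  obtain ⟨r, hr'⟩ : ∃ r : IFun M (N M) (W M), ∀ j, r j = rk (W M) R j := ⟨⟨_, hrI⟩, fun _ => rfl⟩
  have hrlt : ∀ i j, c i = c j → e i < e j → r i < r j := by
    intro i j h h'
    rw [hr', hr']
    exact rk_lt (hr j) ((hR _ _).2 ⟨h, h'⟩)
  have hrinj : ∀ i j, c i = c j → r i = r j → e i = e j := by
    intro i j h h'
    rcases lt_trichotomy (e i) (e j) with h1 | h1 | h1
    · exact ((hrlt i j h h1).ne h').elim
    · exact h1
    · exact ((hrlt j i h.symm h1).ne h'.symm).elim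
  have hrmono : ∀ i j, c i = c j → r i < r j → e i < e j := by
    intro i j h h'
    rcases lt_trichotomy (e i) (e j) with h1 | h1 | h1
    · exact h1
    · rw [he3 _ _ h1] at h'
      exact (lt_irrefl _ h').elim
    · exact (lt_asymm h' (hrlt j i h.symm h1)).elim
  -- the types
  have halI : IF M (fun n : N M => lst M (fun b : W M => ∀ j, c j = n → r j < b)) := by fun_prop
  obtain ⟨al, hal1, hal2⟩ : ∃ al : IFun M (N M) (W M), (∀ j, r j < al (c j)) ∧
      ∀ n i, i < al n → ∃ j, c j = n ∧ r j = i := by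
    refine ⟨⟨_, halI⟩, fun j => ?_, fun n i hi => ?_⟩
    · obtain ⟨b, hb⟩ := W_seq r
      exact lst_spec (P := fun b : W M => ∀ j', c j' = c j → r j' < b) (by fun_prop)
        ⟨b, fun j' _ => hb j'⟩ j rfl
    · have h1 := not_of_lt_lst (P := fun b : W M => ∀ j, c j = n → r j < b) (by fun_prop) hi
      push Not at h1
      obtain ⟨j, hj, hj'⟩ := h1
      rcases lt_or_eq_of_le hj' with h2 | h2
      · rw [hr'] at h2
        obtain ⟨y, hy, hy'⟩ := exists_rk_eq_below hRt (hr j) h2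
        exact ⟨y, ((hR _ _).1 hy).1.trans hj, by rw [hr', hy']⟩
      · exact ⟨j, hj, h2.symm⟩
  -- the functions
  have hzI : IF M (fun q : N M × W M => bs (F (lst M (fun j : N M => c j = q.1 ∧ r j = q.2)))) := by
    fun_prop
  obtain ⟨zf, hzf⟩ : ∃ zf : IFun M (N M × W M) (Fn M), ∀ n i, i < al n → ∃ j, c j = n ∧ r j = i ∧
      zf (n, i) = bs (F j) := by
    refine ⟨⟨_, hzI⟩, fun n i hi => ?_⟩
    obtain ⟨h1, h2⟩ := lst_spec (P := fun j : N M => c j = n ∧ r j = i) (by fun_prop) (hal2 n i hi)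
    exact ⟨_, h1, h2, rfl⟩
  obtain ⟨G, hG, hG'⟩ := realize hk N1 al zf (by
    intro n i j _ hij hj
    obtain ⟨u, hu1, hu2, hu3⟩ := hzf n i (hij.trans hj)
    obtain ⟨v, hv1, hv2, hv3⟩ := hzf n j hj
    rw [hu3, hv3]
    refine ltn_bs ((av_lt hk).1 ?_)
    have h1 := hrmono u v (hu1.trans hv1.symm) (by rw [hu2, hv2]; exact hij)
    rw [← hF' u, ← hF' v, hu1, hv1] at h1
    exact h1) (by
    intro n i _ hi
    obtain ⟨u, hu1, hu2, hu3⟩ := hzf n i hi
    rw [hu3]
    exact (bs_lt_top n _).len)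
  refine ⟨N1, al, G, hG, fun a => ⟨fun h => ?_, ?_⟩⟩
  · obtain ⟨j, rfl⟩ := he2 a h
    refine ⟨c j, r j, hcN j, hal1 j, ?_⟩
    rw [(rkn_eq_iff cIn_ad).2 (hG' (c j) (r j) (hcN j) (hal1 j))]
    obtain ⟨u, hu1, hu2, hu3⟩ := hzf (c j) (r j) (hal1 j)
    rw [hu3, ← hrinj u j hu1 hu2, ← hF' u, hu1]
    rfl
  · rintro ⟨n, i, hn, hi, rfl⟩
    rw [(rkn_eq_iff cIn_ad).2 (hG' n i hn hi)]
    obtain ⟨u, hu1, hu2, hu3⟩ := hzf n i hi
    rw [hu3]
    have h1 := hF' u
    rw [hu1] at h1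
    show x (av k n (F u))
    rw [h1]
    exact he1 u

end

end Pool.Agent.Helper48.MG
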