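import Pool.Agent.Helper48.MG.FinA
import Pool.Agent.Helper97.MG.Fin

/-!
# The typed form of the theorem from determinacy
-/

set_option autoImplicit false

namespace Pool.Agent.Helper48.MG

variable {M : Type} [ZFM M]

theorem magT [AD M] : MagT M := by
  intro F
  obtain ⟨f, v, hv⟩ := main_avoid cIn_ad F
  obtain ⟨k, hk⟩ := exists_KK f
  refine ⟨AA k, AA_inj hk, v, fun x hx hb => ?_⟩
  obtain ⟨N0, al, G, hG, h⟩ := exists_pat hk x hx hb
  have h1 : x = xs N0 al G := IFun.ext fun a => propext (h a)
  rw [h1]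
  exact hv N0 al G hG

end Pool.Agent.Helper48.MG
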